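import Pool.Agent.Helper58.KobMain

set_option autoImplicit false

namespace Pool.Agent.Results.MP_3c459d_an.LowerBoundFails

open Pool.Agent.Helper58.Kob

/-- **Negative answer to Q1 of `MP_3c459d_an`, in every dimension `n ≥ 3`.** There are a bounded
pseudoconvex Reinhardt domain `D ⊆ ℂ^n`, a boundary point `ζ` of `D` with all coordinates nonzero
and a sequence `z m ∈ D` converging to `ζ` such that `k_D(z₀, z m) + (1/2) log d_D(z m) → -∞`
for every `z₀ ∈ D`. -/
theorem result (n : ℕ) (hn : 3 ≤ n) :
    ∃ (D : Set (Cn n)) (ζ : Cn n), Bornology.IsBounded D ∧ IsCounterexample D ζ :=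
  main n hn

end Pool.Agent.Results.MP_3c459d_an.LowerBoundFails
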